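import Mathlib

open MeasureTheory

namespace Pool.Agent.Lib.MP_f79ffc_lc

/-- The ideal of Lebesgue null subsets of the real line. -/
def NullIdeal : Set (Set ℝ) := {X | volume X = 0}

/-- The ideal of universally null sets: outer measure zero for every atomless Borel
probability measure on the real line. -/
def UnivNull : Set (Set ℝ) :=
  {X | ∀ μ : Measure ℝ, IsProbabilityMeasure μ → (∀ x : ℝ, μ {x} = 0) → μ X = 0}

/-- Additivity: least size of a subfamily of `I` whose union is not in `I`. -/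
noncomputable def addI (I : Set (Set ℝ)) : Cardinal :=
  sInf {κ | ∃ F : Set (Set ℝ), F ⊆ I ∧ ⋃₀ F ∉ I ∧ Cardinal.mk F = κ}

/-- Uniformity: least size of a set of reals not in `I`. -/
noncomputable def nonI (I : Set (Set ℝ)) : Cardinal :=
  sInf {κ | ∃ X : Set ℝ, X ∉ I ∧ Cardinal.mk X = κ}

/-- Cofinality: least size of a subfamily of `I` cofinal in `I` under inclusion. -/
noncomputable def cofI (I : Set (Set ℝ)) : Cardinal :=
  sInf {κ | ∃ F : Set (Set ℝ), F ⊆ I ∧ (∀ A ∈ I, ∃ B ∈ F, A ⊆ B) ∧ Cardinal.mk F = κ}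

end Pool.Agent.Lib.MP_f79ffc_lc
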