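import Pool.Agent.Lib.MP_f79ffc_lc.Main

open MeasureTheory ProbabilityTheory Set Filter Cardinal
open scoped ENNReal

namespace Pool.Agent.Lib.MP_f79ffc_lc

lemma cdf_map (μ : Measure ℝ) [IsProbabilityMeasure μ] (hat : ∀ x, μ {x} = 0) :
    μ.map (cdf μ) = volume.restrict (Icc 0 1) := by
  have hmono := monotone_cdf μ
  have hmeas : Measurable (cdf μ) := hmono.measurable
  have : IsProbabilityMeasure (μ.map (cdf μ)) :=
    Measure.isProbabilityMeasure_map hmeas.aemeasurable
  have hcont : Continuous (cdf μ) := by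
    rw [continuous_iff_continuousAt]
    intro x
    rw [hmono.continuousAt_iff_leftLim_eq_rightLim, (cdf μ).rightLim_eq]
    have h1 := (cdf μ).measure_singleton x
    rw [measure_cdf, hat x] at h1
    have h2 := ENNReal.ofReal_eq_zero.mp h1.symm
    have h3 := hmono.leftLim_le (le_refl x)
    linarith
  refine Measure.ext_of_Iic _ _ fun t => ?_
  rw [Measure.map_apply hmeas measurableSet_Iic, Measure.restrict_apply measurableSet_Iic]
  rcases le_or_gt 1 t with h1 | h1
  · have e1 : cdf μ ⁻¹' Iic t = Set.univ := by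
      ext x; simpa using le_trans (cdf_le_one μ x) h1
    have e2 : Iic t ∩ Icc (0 : ℝ) 1 = Icc 0 1 := by
      refine inter_eq_right.mpr fun x hx => le_trans hx.2 h1
    rw [e1, e2]; simp
  have e2 : Iic t ∩ Icc (0 : ℝ) 1 = Icc 0 t := by
    ext x
    simp only [mem_inter_iff, mem_Iic, mem_Icc]
    constructor
    · rintro ⟨h, h', -⟩; exact ⟨h', h⟩
    · rintro ⟨h, h'⟩; exact ⟨h', h, by linarith⟩
  rw [e2, Real.volume_Icc, sub_zero]
  set T := cdf μ ⁻¹' Iic t with hT
  rcases T.eq_empty_or_nonempty with hTe | hTn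
  · rw [hTe, measure_empty]
    symm
    rw [ENNReal.ofReal_eq_zero]
    by_contra hpos
    obtain ⟨x, hx⟩ := ((tendsto_cdf_atBot μ).eventually (gt_mem_nhds (not_le.mp hpos))).exists
    have : x ∈ T := hx.le
    rw [hTe] at this
    exact this
  · have hcl : IsClosed T := isClosed_Iic.preimage hcont
    have hbdd : BddAbove T := by
      obtain ⟨b, hb⟩ := eventually_atTop.mp ((tendsto_cdf_atTop μ).eventually (lt_mem_nhds h1))
      refine ⟨b, fun x hx => ?_⟩
      by_contra hxb
      exact absurd (hb x (not_le.mp hxb).le) (not_lt.mpr hx)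
    have hs : sSup T ∈ T := hcl.csSup_mem hTn hbdd
    have hTI : T = Iic (sSup T) := by
      ext x
      exact ⟨fun hx => le_csSup hbdd hx, fun hx => le_trans (hmono hx) hs⟩
    have hge : t ≤ cdf μ (sSup T) := by
      have hlim : Tendsto (cdf μ) (nhdsWithin (sSup T) (Ioi (sSup T))) (nhds (cdf μ (sSup T))) :=
        hcont.continuousAt.continuousWithinAt
      refine ge_of_tendsto hlim (eventually_nhdsWithin_of_forall fun x hx => ?_)
      by_contra hxt
      exact absurd (le_csSup hbdd (show x ∈ T from (not_le.mp hxt).le)) (not_le.mpr hx)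
    rw [hTI, ← ofReal_cdf, le_antisymm hs hge]

lemma non_le {I : Set (Set ℝ)} {X : Set ℝ} (hX : X ∉ I) : nonI I ≤ Cardinal.mk X :=
  csInf_le' ⟨X, hX, rfl⟩

lemma nonN_attained : ∃ X : Set ℝ, X ∉ NullIdeal ∧ Cardinal.mk X = nonI NullIdeal :=
  csInf_mem (s := {κ | ∃ X : Set ℝ, X ∉ NullIdeal ∧ Cardinal.mk X = κ})
    ⟨_, Set.univ, univ_not_null, rfl⟩

lemma un_of_small {X : Set ℝ} (hX : Cardinal.mk X < nonI NullIdeal) : X ∈ UnivNull := by
  intro μ hμ hat
  have h1 : cdf μ '' X ∈ NullIdeal := by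
    by_contra h
    exact absurd (lt_of_le_of_lt (le_trans (non_le h) mk_image_le) hX) (lt_irrefl _)
  have hmeas : Measurable (cdf μ) := (monotone_cdf μ).measurable
  have h2 : μ (cdf μ ⁻¹' toMeasurable volume (cdf μ '' X)) = 0 := by
    rw [← Measure.map_apply hmeas (measurableSet_toMeasurable _ _), cdf_map μ hat,
      Measure.restrict_apply (measurableSet_toMeasurable _ _)]
    refine measure_mono_null inter_subset_left ?_
    rw [measure_toMeasurable]; exact h1
  refine measure_mono_null (fun x hx => ?_) h2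
  exact subset_toMeasurable volume (cdf μ '' X) (mem_image_of_mem _ hx)

lemma aleph0_lt_nonN : ℵ₀ < nonI NullIdeal := by
  obtain ⟨A, hA, hc⟩ := nonN_attained
  rw [← hc]
  by_contra h
  exact hA ((le_aleph0_iff_set_countable.mp (not_lt.mp h)).measure_zero volume)

/-- Grzegorek: there is a universally null set of size `non(N)`. -/
theorem grzegorek : ∃ Z ∈ UnivNull, Cardinal.mk Z = nonI NullIdeal := by
  classical
  obtain ⟨A, hA, hc⟩ := nonN_attained
  let ι := (nonI NullIdeal).ord.ToType
  have hι : Cardinal.mk ι = nonI NullIdeal := by simp [ι]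
  obtain ⟨a⟩ : Nonempty (ι ≃ A) := Cardinal.eq.mp (hι.trans hc.symm)
  have hIio : ∀ i : ι, Cardinal.mk (Iio i) < nonI NullIdeal := fun i => by
    have := mk_Iio_lt i (by simp [ι])
    rwa [hι] at this
  have hIic : ∀ i : ι, Cardinal.mk (Iic i) < nonI NullIdeal := fun i => by
    rw [← Iio_insert]
    refine lt_of_le_of_lt mk_insert_le ?_
    exact add_lt_of_lt aleph0_lt_nonN.le (hIio i) (lt_trans one_lt_aleph0 aleph0_lt_nonN)
  obtain ⟨C, hCm, hC⟩ := exists_codes
  let ε : ℕ → ℝ≥0∞ := fun n => (2⁻¹ : ℝ≥0∞) ^ n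
  have hε : ∀ n, ε n ≠ 0 := fun n => by simp [ε]
  have hnull : ∀ i : ι, volume ((fun j : ι => (a j : ℝ)) '' Iio i) = 0 := fun i =>
    un_null (un_of_small (lt_of_le_of_lt mk_image_le (hIio i)))
  choose c hc1 hc2 using fun i => hC ε hε _ (hnull i)
  have hunc : ¬ Countable ((ℕ → ℕ) × ℝ) := by
    intro h
    have : Countable ℝ := (Prod.snd_surjective (α := ℕ → ℕ) (β := ℝ)).countable
    exact not_countable_iff.mpr (inferInstance : Uncountable ℝ) this
  let e : ((ℕ → ℕ) × ℝ) ≃ᵐ ℝ :=
    PolishSpace.measurableEquivOfNotCountable hunc (not_countable_iff.mpr inferInstance)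
  let z : ι → ℝ := fun i => e (c i, a i)
  have hz : Function.Injective z := fun i j hij => by
    have := e.injective hij
    simp only [Prod.mk.injEq] at this
    exact a.injective (Subtype.ext this.2)
  refine ⟨range z, fun μ hμ hat => ?_, by rw [mk_range_eq _ hz, hι]⟩
  let C' : ℕ → ℕ → Set ℝ := fun n m => if volume (C m) ≤ ε n then C m else ∅
  have hC'm : ∀ n m, MeasurableSet (C' n m) := fun n m => by
    simp only [C']; split_ifs
    · exact hCm m
    · exact MeasurableSet.empty
  have hC'v : ∀ n m, volume (C' n m) ≤ ε n := fun n m => by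
    simp only [C']; split_ifs with h
    · exact h
    · simp
  let p : ℝ → ℝ → Prop := fun r t => ¬ ∃ᶠ n in atTop, t ∈ C' n ((e.symm r).1 n)
  have hp : MeasurableSet {w : ℝ × ℝ | p w.1 w.2} := by
    have : {w : ℝ × ℝ | p w.1 w.2} = (⋂ k : ℕ, ⋃ n : ℕ, ⋃ _ : k ≤ n, ⋃ m : ℕ,
        ({w : ℝ × ℝ | (e.symm w.1).1 n = m} ∩ Prod.snd ⁻¹' C' n m))ᶜ := by
      ext w
      simp only [p, frequently_atTop, mem_ofPred_eq, mem_compl_iff, mem_iInter, mem_iUnion,
        mem_inter_iff, mem_preimage, exists_prop, exists_eq_left']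
    rw [this]
    refine (MeasurableSet.iInter fun k => MeasurableSet.iUnion fun n =>
      MeasurableSet.iUnion fun _ => MeasurableSet.iUnion fun m => ?_).compl
    refine MeasurableSet.inter ?_ (measurable_snd (hC'm n m))
    exact measurableSet_eq_fun ((measurable_pi_apply n).comp
      (measurable_fst.comp (e.symm.measurable.comp measurable_fst))) measurable_const
  have h1 : ∀ᵐ r ∂μ, ∀ᵐ t ∂(volume : Measure ℝ), p r t := by
    refine Eventually.of_forall fun r => ?_
    have hsum : ∑' n, volume (C' n ((e.symm r).1 n)) ≠ ∞ := by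
      refine ne_top_of_le_ne_top ?_ (ENNReal.tsum_le_tsum fun n => hC'v n _)
      simp only [ε]
      rw [ENNReal.tsum_geometric]
      simp
    filter_upwards [ae_eventually_notMem hsum] with t ht
    exact not_frequently.mpr ht
  have h2 : ∀ᵐ t ∂(volume : Measure ℝ), ∀ᵐ r ∂μ, p r t := (Measure.ae_ae_comm hp).mp h1
  obtain ⟨t, htA, ht⟩ : ∃ t ∈ A, ∀ᵐ r ∂μ, p r t := by
    by_contra hcon
    simp only [not_exists, not_and] at hcon
    exact hA (measure_mono_null hcon h2)
  set j : ι := a.symm ⟨t, htA⟩ with hj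
  have h3 : μ (z '' Iic j) = 0 := un_of_small (lt_of_le_of_lt mk_image_le (hIic j)) μ hμ hat
  refine measure_mono_null ?_ (measure_union_null h3 ht)
  rintro _ ⟨i, rfl⟩
  rcases le_or_gt i j with hij | hij
  · exact Or.inl ⟨i, hij, rfl⟩
  · right
    simp only [p, mem_compl_iff, mem_ofPred_eq, not_not, z, MeasurableEquiv.symm_apply_apply]
    refine (hc2 i t ⟨j, hij, by simp [hj]⟩).mono fun n hn => ?_
    simp only [C', if_pos (hc1 i n)]
    exact hn

lemma addUN_le_nonN : addI UnivNull ≤ nonI NullIdeal := by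
  obtain ⟨A, hA, hc⟩ := nonN_attained
  rw [← hc]
  refine add_le (fun x : A => {(x : ℝ)}) (fun _ => un_of_subsingleton subsingleton_singleton) ?_
  rw [iUnion_of_singleton_coe]
  exact fun h => hA (un_null h)

lemma aleph0_lt_addN : ℵ₀ < addI NullIdeal := by
  obtain ⟨F, hF, hU, hc⟩ := addN_attained
  rw [← hc]
  by_contra h
  exact hU ((measure_sUnion_null_iff (le_aleph0_iff_set_countable.mp (not_lt.mp h))).mpr hF)

lemma cofN_le_continuum : cofI NullIdeal ≤ 𝔠 := by
  have h1 : Cardinal.mk {t : Set ℝ | MeasurableSet t} ≤ 𝔠 := by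
    have := MeasurableSpace.cardinal_measurableSet_le_continuum
      (s := TopologicalSpace.countableBasis ℝ)
      (le_trans (le_aleph0_iff_set_countable.mpr (TopologicalSpace.countable_countableBasis ℝ))
        aleph0_le_continuum)
    rwa [← (TopologicalSpace.isBasis_countableBasis ℝ).borel_eq_generateFrom,
      ← BorelSpace.measurable_eq] at this
  refine le_trans (csInf_le' ⟨{t | MeasurableSet t ∧ volume t = 0}, fun t ht => ht.2,
    fun A hA => ⟨toMeasurable volume A, ⟨measurableSet_toMeasurable _ _, ?_⟩,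
      subset_toMeasurable _ _⟩, rfl⟩) (le_trans (mk_le_mk_of_subset fun t ht => ht.1) h1)
  rw [measure_toMeasurable]; exact hA

theorem eq_of_large {Z : Set ℝ} (hZ : Z ∈ UnivNull) (hcard : cofI NullIdeal ≤ Cardinal.mk Z) :
    addI UnivNull = addI NullIdeal :=
  le_antisymm (addUN_le_of_large hZ hcard) addN_le_addUN

theorem eq_of_cof_le_non (h : cofI NullIdeal ≤ nonI NullIdeal) :
    addI UnivNull = addI NullIdeal := by
  obtain ⟨Z, hZ, hc⟩ := grzegorek
  exact eq_of_large hZ (hc ▸ h)

theorem eq_of_continuum_le (h : 𝔠 ≤ Order.succ (addI NullIdeal)) :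
    addI UnivNull = addI NullIdeal := by
  by_contra hne
  have h1 : addI NullIdeal < addI UnivNull := lt_of_le_of_ne addN_le_addUN (Ne.symm hne)
  exact hne (eq_of_cof_le_non (le_trans cofN_le_continuum (le_trans h
    (le_trans (Order.succ_le_of_lt h1) addUN_le_nonN))))

end Pool.Agent.Lib.MP_f79ffc_lc
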