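import Pool.Agent.Lib.MP_f79ffc_lc.Space

open MeasureTheory Set Filter
open scoped ENNReal

namespace Pool.Agent.Lib.MP_f79ffc_lc

noncomputable def dd (n : ℕ) : ℝ := (1 / 2) ^ n / 16

lemma dd_pos (n : ℕ) : 0 < dd n := by unfold dd; positivity

noncomputable def LL (n : ℕ) : ℕ := ⌊1 / (dd n ^ 2 * pp n)⌋₊

/-- columns `m` at level `n` on which conditioning raises the relative mass of `U` -/
def badSet (U : Set Om) (n : ℕ) (t : Finset ((ℕ × ℕ) × Fin 3)) (b : Fin 3) : Set ℕ :=
  {m | (∀ q ∈ t, q.1.1 < n) ∧ 0 < PP.real (cyl t) ∧ b ≠ 0 ∧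
    (PP.real (U ∩ cyl t) + dd n * PP.real (cyl t)) * pp n ≤
      PP.real (U ∩ (cyl t ∩ {y | y (n, m) = b}))}

lemma meas_coord (i : ℕ × ℕ) (b : Fin 3) : MeasurableSet {y : Om | y i = b} :=
  measurableSet_eq_fun (measurable_pi_apply i) measurable_const

lemma badSet_card (U : Set Om) (hU : MeasurableSet U) (n : ℕ) (t : Finset ((ℕ × ℕ) × Fin 3))
    (b : Fin 3) (B : Finset ℕ) (hB : (B : Set ℕ) ⊆ badSet U n t b) : B.card ≤ LL n := by
  rcases B.eq_empty_or_nonempty with rfl | ⟨m0, hm0⟩
  · simp
  obtain ⟨hlev, hpos, hb, -⟩ := hB hm0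
  have hw : ww n b = pp n := by simp [ww, hb]
  have hne : ∀ m, ∀ q ∈ t, q.1 ≠ (n, m) := by
    intro m q hq heq
    have := hlev q hq
    rw [heq] at this
    exact lt_irrefl _ this
  have huniv : (PP.restrict (cyl t)).real univ = PP.real (cyl t) := by
    rw [measureReal_restrict_apply MeasurableSet.univ, univ_inter]
  have h := few_bad (PP.restrict (cyl t)) U hU B (fun m => {y | y (n, m) = b})
    (fun m => meas_coord _ _) (pp n) (dd n) (pp_pos n) (dd_pos n) (by rw [huniv]; exact hpos)
    (by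
      intro m _
      rw [measureReal_restrict_apply (meas_coord _ _), huniv, inter_comm,
        PP_cyl_inter t (n, m) b (hne m), hw])
    (by
      intro m _ m' _ hmm
      rw [measureReal_restrict_apply ((meas_coord _ _).inter (meas_coord _ _)), huniv]
      have : {y : Om | y (n, m) = b} ∩ {y : Om | y (n, m') = b} ∩ cyl t =
          cyl (insert ((n, m), b) t) ∩ {y | y (n, m') = b} := by
        rw [cyl_insert]; ext y; simp only [mem_inter_iff]; tauto
      rw [this, PP_cyl_inter, cyl_insert, PP_cyl_inter t (n, m) b (hne m), hw]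
      · ring
      · intro q hq
        rcases Finset.mem_insert.mp hq with rfl | hq
        · simpa using hmm
        · exact hne m' q hq)
    (by
      intro m hm
      obtain ⟨-, -, -, h⟩ := hB hm
      rw [measureReal_restrict_apply hU, huniv,
        measureReal_restrict_apply (hU.inter (meas_coord _ _))]
      have : U ∩ {y : Om | y (n, m) = b} ∩ cyl t = U ∩ (cyl t ∩ {y | y (n, m) = b}) := by
        ext y; simp only [mem_inter_iff]; tauto
      rw [this]
      exact h)
  apply Nat.le_floor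
  have hpos' : 0 < dd n ^ 2 * pp n := by
    have := dd_pos n
    have := pp_pos n
    positivity
  rw [le_div_iff₀ hpos']
  exact h

lemma badSet_finite (U : Set Om) (hU : MeasurableSet U) (n : ℕ) (t : Finset ((ℕ × ℕ) × Fin 3))
    (b : Fin 3) : (badSet U n t b).Finite := by
  by_contra hinf
  obtain ⟨B, hB, hc⟩ := Set.Infinite.exists_subset_card_eq hinf (LL n + 1)
  have := badSet_card U hU n t b B hB
  omega

/-- the decoding map: the `k`-th non-silent value is read as a bit -/
noncomputable def dec (v : ℕ → Fin 3) (k : ℕ) : Bool := by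
  classical exact decide (∃ n, v n = 2 ∧ Nat.count (fun i => v i ≠ 0) n = k)

lemma meas_count (n : ℕ) : Measurable (fun v : ℕ → Fin 3 => Nat.count (fun i => v i ≠ 0) n) := by
  induction n with
  | zero => simp
  | succ n ih =>
    simp only [Nat.count_succ]
    refine ih.add ?_
    exact Measurable.ite
      (measurableSet_eq_fun (f := fun v : ℕ → Fin 3 => v n) (measurable_pi_apply n)
        measurable_const).compl measurable_const measurable_const

lemma meas_dec : Measurable dec := by
  refine measurable_pi_lambda _ fun k => ?_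
  refine measurable_to_bool ?_
  have : (fun v : ℕ → Fin 3 => dec v k) ⁻¹' {true} =
      ⋃ n, ({v : ℕ → Fin 3 | v n = 2} ∩ {v | Nat.count (fun i => v i ≠ 0) n = k}) := by
    ext v
    simp [dec]
  rw [this]
  exact MeasurableSet.iUnion fun n =>
    (measurableSet_eq_fun (f := fun v : ℕ → Fin 3 => v n) (measurable_pi_apply n)
      measurable_const).inter (measurableSet_eq_fun (meas_count n) measurable_const)

lemma prod_lower (v : ℕ → Fin 3) (j : ℕ) (hv : ∀ n, j ≤ n → v n = 0) (n : ℕ) (hn : j ≤ n) :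
    (∏ k ∈ Finset.range j, ww k (v k)) * (1 - (1 / 2) ^ j / 16 + (1 / 2) ^ n / 16) ≤
      ∏ k ∈ Finset.range n, ww k (v k) := by
  induction n, hn using Nat.le_induction with
  | base => simp
  | succ n hn ih =>
    rw [Finset.prod_range_succ, hv n hn]
    have hA : 0 < ∏ k ∈ Finset.range j, ww k (v k) := Finset.prod_pos fun k _ => ww_pos _ _
    have hw : ww n 0 = 1 - (1 / 2) ^ n / 32 := by simp only [ww, pp, if_true]; ring
    have hw0 := ww_pos n 0
    have hc : ((1 : ℝ) / 2) ^ n ≤ (1 / 2) ^ j := pow_le_pow_of_le_one (by norm_num) (by norm_num) hn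
    have hc0 : (0 : ℝ) < (1 / 2) ^ n := by positivity
    refine le_trans ?_ (mul_le_mul_of_nonneg_right ih hw0.le)
    rw [mul_assoc]
    refine mul_le_mul_of_nonneg_left ?_ hA.le
    rw [hw, pow_succ]
    nlinarith

/-- the invariant of the construction -/
def Inv (U : Set Om) (x : ℕ → ℕ) (s : ℕ × (ℕ → Fin 3)) : Prop :=
  (∀ n, s.1 ≤ n → s.2 n = 0) ∧
    PP.real (U ∩ cyl (cond x s.2 s.1)) ≤ (1 / 2 - (1 / 2) ^ s.1 / 4) * PP.real (cyl (cond x s.2 s.1))

lemma step (U : Set Om) (x : ℕ → ℕ) (s : ℕ × (ℕ → Fin 3)) (hs : Inv U x s) (b : Fin 3)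
    (hb : b ≠ 0) (n : ℕ) (hn : s.1 ≤ n) (hx : x n ∉ badSet U n (cond x s.2 s.1) b) :
    Inv U x (n + 1, Function.update s.2 n b) := by
  obtain ⟨j, v⟩ := s
  obtain ⟨hv, hle⟩ := hs
  simp only at hv hle hn hx
  refine ⟨fun k hk => ?_, ?_⟩
  · simp only at hk ⊢
    rw [Function.update_of_ne (by omega)]
    exact hv k (by omega)
  simp only
  have hA : 0 < PP.real (cyl (cond x v j)) := by
    rw [PP_cond]; exact Finset.prod_pos fun k _ => ww_pos _ _
  have hlt : PP.real (U ∩ (cyl (cond x v j) ∩ {y | y (n, x n) = b})) <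
      (PP.real (U ∩ cyl (cond x v j)) + dd n * PP.real (cyl (cond x v j))) * pp n := by
    by_contra hcon
    exact hx ⟨fun q hq => lt_of_lt_of_le (cond_lev x v j q hq) hn, hA, hb, not_lt.mp hcon⟩
  have hsub : U ∩ cyl (cond x (Function.update v n b) (n + 1)) ⊆
      U ∩ (cyl (cond x v j) ∩ {y | y (n, x n) = b}) := by
    rintro y ⟨hyU, hy⟩
    rw [mem_cyl_cond] at hy
    refine ⟨hyU, ?_, ?_⟩
    · rw [mem_cyl_cond]
      intro k hk
      rw [hy k (by omega), Function.update_of_ne (by omega)]
    · have := hy n (by omega)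
      rwa [Function.update_self] at this
  have hP : PP.real (cyl (cond x (Function.update v n b) (n + 1))) =
      (∏ k ∈ Finset.range n, ww k (v k)) * pp n := by
    rw [PP_cond, Finset.prod_range_succ, Function.update_self]
    congr 1
    · refine Finset.prod_congr rfl fun k hk => ?_
      rw [Function.update_of_ne (by have := Finset.mem_range.mp hk; omega)]
    · simp [ww, hb]
  have hlow := prod_lower v j hv n hn
  rw [← PP_cond x v j] at hlow
  rw [hP]
  refine le_trans (measureReal_mono hsub) (le_trans hlt.le ?_)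
  rw [← mul_assoc]
  refine mul_le_mul_of_nonneg_right ?_ (pp_pos n).le
  set A := PP.real (cyl (cond x v j))
  set Q := ∏ k ∈ Finset.range n, ww k (v k)
  have hc : ((1 : ℝ) / 2) ^ n ≤ (1 / 2) ^ j := pow_le_pow_of_le_one (by norm_num) (by norm_num) hn
  have hc0 : (0 : ℝ) < (1 / 2) ^ n := by positivity
  have hc1 : ((1 : ℝ) / 2) ^ j ≤ 1 := pow_le_one₀ (by norm_num) (by norm_num)
  set a : ℝ := (1 / 2) ^ j
  set c : ℝ := (1 / 2) ^ n with hcdef
  have hθ : (1 / 2 - a / 8) ≤ (1 / 2 - (1 / 2) ^ (n + 1) / 4 : ℝ) := by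
    rw [pow_succ, ← hcdef]; linarith
  have hQ : A * (1 - a / 16) ≤ Q := by nlinarith
  have hdd : dd n ≤ a / 16 := by unfold dd; linarith
  have hQ0 : 0 ≤ Q := le_trans (by nlinarith) hQ
  calc PP.real (U ∩ cyl (cond x v j)) + dd n * A ≤ (1 / 2 - a / 4) * A + a / 16 * A := by
        nlinarith
    _ ≤ (1 / 2 - a / 8) * (A * (1 - a / 16)) := by nlinarith [mul_pos hA hc0, sq_nonneg a]
    _ ≤ (1 / 2 - a / 8) * Q := mul_le_mul_of_nonneg_left hQ (by linarith)
    _ ≤ _ := mul_le_mul_of_nonneg_right hθ hQ0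

/-- Key lemma: a compact set of large measure has a slalom outside which any bit string
can be written into a point of the set. -/
theorem key : ∃ h : ℕ → ℕ, ∀ K : Set Om, IsCompact K → PP.real Kᶜ < 1 / 4 →
    ∃ S : ℕ → Finset ℕ, (∀ n, (S n).card ≤ h n) ∧
      ∀ x : ℕ → ℕ, (∃ᶠ n in atTop, x n ∉ S n) → ∀ c : ℕ → Bool,
        ∃ y ∈ K, dec (fun n => y (n, x n)) = c := by
  classical
  obtain ⟨enc, henc⟩ := Countable.exists_injective_nat (Finset ((ℕ × ℕ) × Fin 3))
  refine ⟨fun n => (n + 1) * (3 * LL n), fun K hK hKm => ?_⟩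
  have hU : MeasurableSet Kᶜ := hK.isClosed.measurableSet.compl
  let T : ℕ → Finset (Finset ((ℕ × ℕ) × Fin 3)) := fun n =>
    (Finset.range (n + 1)).preimage enc henc.injOn
  have hT : ∀ n, (T n).card ≤ n + 1 := fun n => by
    have := Finset.card_preimage (Finset.range (n + 1)) enc henc.injOn
    rw [this]
    exact le_trans (Finset.card_filter_le _ _) (by simp)
  let S : ℕ → Finset ℕ := fun n => (T n).biUnion fun t =>
    (Finset.univ : Finset (Fin 3)).biUnion fun b => (badSet_finite Kᶜ hU n t b).toFinset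
  refine ⟨S, fun n => ?_, fun x hx c => ?_⟩
  · refine le_trans (Finset.card_biUnion_le_card_mul _ _ (3 * LL n) fun t _ => ?_)
      (Nat.mul_le_mul_right _ (hT n))
    refine le_trans (Finset.card_biUnion_le_card_mul _ _ (LL n) fun b _ => ?_) (by simp)
    exact badSet_card Kᶜ hU n t b _ (by simp)
  have hstep : ∀ s : ℕ × (ℕ → Fin 3), ∀ b : Fin 3, ∃ n, s.1 ≤ n ∧
      (Inv Kᶜ x s → b ≠ 0 → Inv Kᶜ x (n + 1, Function.update s.2 n b)) := by
    intro s b
    obtain ⟨n, hn, hxn⟩ := frequently_atTop.mp hx (max s.1 (enc (cond x s.2 s.1)))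
    refine ⟨n, le_trans (le_max_left _ _) hn, fun hs hb => ?_⟩
    refine step Kᶜ x s hs b hb n (le_trans (le_max_left _ _) hn) fun hbad => hxn ?_
    simp only [S, Finset.mem_biUnion, Finset.mem_univ, true_and, Set.Finite.mem_toFinset]
    refine ⟨cond x s.2 s.1, ?_, b, hbad⟩
    simp only [T, Finset.mem_preimage, Finset.mem_range]
    have := le_trans (le_max_right _ _) hn
    omega
  choose N hN1 hN2 using hstep
  let bit : ℕ → Fin 3 := fun k => if c k then 2 else 1
  have hbit : ∀ k, bit k ≠ 0 := fun k => by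
    simp only [bit]; split_ifs <;> decide
  let seq : ℕ → ℕ × (ℕ → Fin 3) := fun k => Nat.rec (0, fun _ => 0)
    (fun k s => (N s (bit k) + 1, Function.update s.2 (N s (bit k)) (bit k))) k
  have seq0 : seq 0 = (0, fun _ => 0) := rfl
  have seqS : ∀ k, seq (k + 1) =
      (N (seq k) (bit k) + 1, Function.update (seq k).2 (N (seq k) (bit k)) (bit k)) :=
    fun k => rfl
  have hinv : ∀ k, Inv Kᶜ x (seq k) := by
    intro k
    induction k with
    | zero =>
      refine ⟨fun _ _ => rfl, ?_⟩
      have : cyl (cond x (seq 0).2 (seq 0).1) = univ := by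
        ext y; simp [seq0, mem_cyl_cond]
      rw [this]
      simp only [seq0, inter_univ, pow_zero, probReal_univ]
      linarith
    | succ k ih => rw [seqS]; exact hN2 _ _ ih (hbit k)
  have hj : ∀ k, (seq k).1 < (seq (k + 1)).1 := fun k => by
    rw [seqS]; have := hN1 (seq k) (bit k); simp only; omega
  have hmono : StrictMono fun k => (seq k).1 := strictMono_nat_of_lt_succ hj
  have hagree : ∀ k k', k ≤ k' → ∀ n < (seq k).1, (seq k').2 n = (seq k).2 n := by
    intro k k' hkk
    induction k', hkk using Nat.le_induction with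
    | base => intro n _; rfl
    | succ k' hk ih =>
      intro n hn
      rw [seqS]
      simp only
      have h1 := hN1 (seq k') (bit k')
      have h2 : (seq k).1 ≤ (seq k').1 := hmono.monotone hk
      rw [Function.update_of_ne (by omega)]
      exact ih n hn
  have hne : ∀ k, (K ∩ cyl (cond x (seq k).2 (seq k).1)).Nonempty := by
    intro k
    by_contra hcon
    have hsub : Kᶜ ∩ cyl (cond x (seq k).2 (seq k).1) = cyl (cond x (seq k).2 (seq k).1) := by
      refine inter_eq_right.mpr fun y hy hyK => hcon ⟨y, hyK, hy⟩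
    have h := (hinv k).2
    rw [hsub] at h
    have hA : 0 < PP.real (cyl (cond x (seq k).2 (seq k).1)) := by
      rw [PP_cond]; exact Finset.prod_pos fun k _ => ww_pos _ _
    have hc0 : (0 : ℝ) < (1 / 2) ^ (seq k).1 := by positivity
    nlinarith
  obtain ⟨y, hy⟩ := IsCompact.nonempty_iInter_of_sequence_nonempty_isCompact_isClosed
    (fun k => K ∩ cyl (cond x (seq k).2 (seq k).1))
    (by
      rintro k y ⟨hyK, hy⟩
      refine ⟨hyK, ?_⟩
      rw [mem_cyl_cond] at hy ⊢
      intro n hn
      rw [hy n (lt_trans hn (hj k)), hagree k (k + 1) (by omega) n hn])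
    hne (hK.inter_right (cyl_clopen _).isClosed)
    (fun k => hK.isClosed.inter (cyl_clopen _).isClosed)
  rw [mem_iInter] at hy
  refine ⟨y, (hy 0).1, ?_⟩
  set v : ℕ → Fin 3 := fun n => y (n, x n) with hv
  have hvk : ∀ k, ∀ n < (seq k).1, v n = (seq k).2 n := fun k =>
    (mem_cyl_cond _ _ _ _).mp (hy k).2
  have hvN : ∀ k, v (N (seq k) (bit k)) = bit k := by
    intro k
    rw [hvk (k + 1) _ (by rw [seqS]; simp only; omega), seqS]
    simp
  have hgap : ∀ k n, (seq k).1 ≤ n → n < N (seq k) (bit k) → v n = 0 := by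
    intro k n h1 h2
    rw [hvk (k + 1) n (by rw [seqS]; simp only; omega), seqS]
    simp only
    rw [Function.update_of_ne (by omega)]
    exact (hinv k).1 n h1
  have hcount_gap : ∀ k n, (seq k).1 ≤ n → n ≤ N (seq k) (bit k) →
      Nat.count (fun i => v i ≠ 0) n = Nat.count (fun i => v i ≠ 0) (seq k).1 := by
    intro k n h1
    induction n, h1 using Nat.le_induction with
    | base => intro _; rfl
    | succ n hn ih =>
      intro h2
      rw [Nat.count_succ, ih (by omega), if_neg (by simp [hgap k n hn (by omega)])]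
      rfl
  have hcount : ∀ k, Nat.count (fun i => v i ≠ 0) (seq k).1 = k := by
    intro k
    induction k with
    | zero => simp [seq0]
    | succ k ih =>
      have : (seq (k + 1)).1 = N (seq k) (bit k) + 1 := by rw [seqS]
      rw [this, Nat.count_succ, hcount_gap k _ (hN1 _ _) le_rfl, ih,
        if_pos (by rw [hvN]; exact hbit k)]
  have hcountN : ∀ k, Nat.count (fun i => v i ≠ 0) (N (seq k) (bit k)) = k := fun k => by
    rw [hcount_gap k _ (hN1 _ _) le_rfl, hcount]
  funext k
  have hiff : (∃ n, v n = 2 ∧ Nat.count (fun i => v i ≠ 0) n = k) ↔ c k = true := by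
    constructor
    · rintro ⟨n, hn2, hnk⟩
      have : n = N (seq k) (bit k) :=
        Nat.count_injective (p := fun i => v i ≠ 0) (by rw [hn2]; decide)
          (by rw [hvN]; exact hbit k) (by rw [hnk, hcountN])
      rw [this, hvN] at hn2
      by_contra hc
      simp [bit, hc] at hn2
    · intro hc
      exact ⟨N (seq k) (bit k), by rw [hvN]; simp [bit, hc], hcountN k⟩
  unfold dec
  rw [Bool.eq_iff_iff, decide_eq_true_iff]
  exact hiff

end Pool.Agent.Lib.MP_f79ffc_lc
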