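import Mathlib

open MeasureTheory Set Filter
open scoped ENNReal

namespace Pool.Agent.Lib.MP_f79ffc_lc

theorem exists_compact_image {α β : Type*} [t : TopologicalSpace α] [hp : PolishSpace α]
    [MeasurableSpace α] [hb0 : BorelSpace α] [TopologicalSpace β] [SecondCountableTopology β]
    [MeasurableSpace β] [OpensMeasurableSpace β] (ν : Measure α) [IsFiniteMeasure ν]
    {f : α → β} (hf : Measurable f) {A : Set α} (hA : MeasurableSet A) {ε : ℝ≥0∞} (hε : ε ≠ 0) :
    ∃ K : Set β, IsCompact K ∧ K ⊆ f '' A ∧ ν A < ν (f ⁻¹' K) + ε := by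
  obtain ⟨t', hle, hcont, hpol⟩ := hf.exists_continuous
  have hb : @BorelSpace α t' _ := by
    refine @BorelSpace.mk α t' _ ?_
    rw [borel_eq_borel_of_le (t := t') (t' := t) hpol hp hle]
    exact hb0.measurable_eq
  obtain ⟨L, hLA, hL, hlt⟩ : ∃ L, L ⊆ A ∧ @IsCompact α t' L ∧ ν A < ν L + ε := by
    let _ : TopologicalSpace α := t'
    exact hA.exists_isCompact_lt_add (measure_ne_top _ _) hε
  refine ⟨f '' L, @IsCompact.image α β t' _ L f hL hcont, image_mono hLA, ?_⟩
  exact lt_of_lt_of_le hlt (by gcongr; exact subset_preimage_image _ _)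

theorem transfer {β : Type*} [TopologicalSpace β] [PolishSpace β] [MeasurableSpace β]
    [BorelSpace β] (μ : Measure β) [IsProbabilityMeasure μ] :
    ∃ π : unitInterval → β,
      (∀ X, μ X = 0 → volume (Subtype.val '' (π ⁻¹' X) : Set ℝ) = 0) ∧
      (∀ M : Set ℝ, volume M = 0 → ∀ ε : ℝ, 0 < ε → ∃ K, IsCompact K ∧ μ.real Kᶜ < ε ∧
        ∀ y ∈ K, ∃ t : unitInterval, π t = y ∧ (t : ℝ) ∉ M) := by
  have : Nonempty β := nonempty_of_isProbabilityMeasure μ
  obtain ⟨π, hπ, hmap⟩ := μ.exists_measurable_map_eq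
  refine ⟨π, fun X hX => ?_, fun M hM ε hε => ?_⟩
  · rw [volume_image_subtype_coe measurableSet_Icc]
    refine measure_mono_null (preimage_mono (subset_toMeasurable μ X)) ?_
    rw [← Measure.map_apply hπ (measurableSet_toMeasurable μ X), hmap, measure_toMeasurable, hX]
  · set B : Set unitInterval := Subtype.val ⁻¹' (toMeasurable volume M) with hB
    have hBm : MeasurableSet B := measurable_subtype_coe (measurableSet_toMeasurable _ _)
    have hB0 : volume B = 0 := by
      rw [← volume_image_subtype_coe measurableSet_Icc]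
      refine measure_mono_null (image_preimage_subset _ _) ?_
      rw [measure_toMeasurable, hM]
    have hA1 : volume Bᶜ = 1 := by
      rw [prob_compl_eq_one_sub hBm, hB0, tsub_zero]
    obtain ⟨K, hK, hKA, hlt⟩ := exists_compact_image volume hπ hBm.compl
      (ε := ENNReal.ofReal ε) (by simpa using hε)
    have hKm : MeasurableSet K := hK.isClosed.measurableSet
    refine ⟨K, hK, ?_, fun y hy => ?_⟩
    · rw [hA1, ← Measure.map_apply hπ hKm, hmap] at hlt
      rw [probReal_compl_eq_one_sub hKm]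
      have h1 : (1 : ℝ≥0∞).toReal < (μ K + ENNReal.ofReal ε).toReal :=
        ENNReal.toReal_strict_mono (by simp) hlt
      rw [ENNReal.toReal_add (measure_ne_top _ _) ENNReal.ofReal_ne_top,
        ENNReal.toReal_ofReal hε.le] at h1
      simp only [ENNReal.toReal_one] at h1
      unfold Measure.real
      linarith
    · obtain ⟨t, ht, rfl⟩ := hKA hy
      exact ⟨t, rfl, fun h => ht (subset_toMeasurable _ _ h)⟩

/-- A countable family of measurable sets from which every null set has a limsup cover. -/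
theorem exists_codes : ∃ C : ℕ → Set ℝ, (∀ m, MeasurableSet (C m)) ∧
    ∀ ε : ℕ → ℝ≥0∞, (∀ n, ε n ≠ 0) → ∀ N : Set ℝ, volume N = 0 →
      ∃ x : ℕ → ℕ, (∀ n, volume (C (x n)) ≤ ε n) ∧ ∀ a ∈ N, ∃ᶠ n in atTop, a ∈ C (x n) := by
  classical
  let 𝒜 := generateSetAlgebra (TopologicalSpace.countableBasis ℝ)
  have h𝒜 : IsSetAlgebra 𝒜 := isSetAlgebra_generateSetAlgebra
  have hc : 𝒜.Countable := countable_generateSetAlgebra (TopologicalSpace.countable_countableBasis ℝ)
  obtain ⟨C, hC⟩ := hc.exists_eq_range ⟨∅, h𝒜.empty_mem⟩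
  have hmeas : ∀ s ∈ 𝒜, MeasurableSet s := by
    intro s hs
    induction hs with
    | base s hs => exact (TopologicalSpace.isOpen_of_mem_countableBasis hs).measurableSet
    | empty => exact MeasurableSet.empty
    | compl s _ ih => exact ih.compl
    | union s t _ _ ih1 ih2 => exact ih1.union ih2
  refine ⟨C, fun m => hmeas _ (hC ▸ mem_range_self m), fun ε hε N hN => ?_⟩
  let η : ℕ → ℝ≥0∞ := fun n => min (ε n) 1 / (n + 1)
  have hη : ∀ n, η n ≠ 0 := fun n => by
    simp only [η]
    refine ENNReal.div_ne_zero.mpr ⟨?_, by simp⟩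
    exact (lt_min (pos_iff_ne_zero.mpr (hε n)) one_pos).ne'
  have hη1 : ∀ n, η n ≠ ∞ := fun n => by
    simp only [η]
    exact ENNReal.div_ne_top (ne_top_of_le_ne_top ENNReal.one_ne_top (min_le_right _ _)) (by simp)
  -- open covers as increasing unions of members of the algebra
  have hO : ∀ k, ∃ O : ℕ → Set ℝ, (∀ j, O j ∈ 𝒜) ∧ Monotone O ∧ N ⊆ ⋃ j, O j ∧
      volume (⋃ j, O j) ≤ η k := by
    intro k
    obtain ⟨U, hNU, hUo, hU⟩ := N.exists_isOpen_lt_of_lt (μ := volume) (η k)
      (by rw [hN]; exact pos_iff_ne_zero.mpr (hη k))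
    obtain ⟨S, hS, hUS⟩ := (TopologicalSpace.isBasis_countableBasis ℝ).open_eq_sUnion hUo
    have hSc : (insert ∅ S).Countable :=
      ((TopologicalSpace.countable_countableBasis ℝ).mono hS).insert _
    obtain ⟨u, hu⟩ := hSc.exists_eq_range ⟨∅, mem_insert _ _⟩
    have hu𝒜 : ∀ i, u i ∈ 𝒜 := fun i => by
      have : u i ∈ insert ∅ S := hu ▸ mem_range_self i
      rcases this with h | h
      · rw [h]; exact h𝒜.empty_mem
      · exact self_subset_generateSetAlgebra (hS h)
    have hUu : ⋃ j, accumulate u j = U := by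
      rw [iUnion_accumulate, ← sUnion_range, ← hu, sUnion_insert, empty_union, hUS]
    refine ⟨accumulate u, fun j => ?_, monotone_accumulate, by rw [hUu]; exact hNU,
      by rw [hUu]; exact hU.le⟩
    have : accumulate u j = ⋃ i ∈ Finset.range (j + 1), u i := by
      ext a; simp [mem_accumulate]
    rw [this]
    exact h𝒜.biUnion_mem _ fun i _ => hu𝒜 i
  choose O hO𝒜 hOmono hON hOη using hO
  have hJ : ∀ k n, ∃ J, n ≤ J ∧ volume ((⋃ j, O k j) \ O k J) ≤ η n := by
    intro k n
    have hfin : volume (⋃ j, O k j) ≠ ∞ := ne_top_of_le_ne_top (hη1 k) (hOη k)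
    have ht := tendsto_measure_iUnion_atTop (μ := volume) (hOmono k)
    have : ∀ᶠ J in atTop, volume (⋃ j, O k j) < volume (O k J) + η n := by
      have h2 : Tendsto (fun J => volume (O k J) + η n) atTop
          (nhds (volume (⋃ j, O k j) + η n)) := ht.add_const _
      exact h2.eventually (lt_mem_nhds (ENNReal.lt_add_right hfin (hη n)))
    obtain ⟨J, hJ1, hJ2⟩ := (this.and (eventually_ge_atTop n)).exists
    refine ⟨J, hJ2, ?_⟩
    exact (measure_sdiff_lt_of_lt_add (hmeas _ (hO𝒜 k J)).nullMeasurableSet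
      (subset_iUnion (O k) J) (ne_top_of_le_ne_top hfin (measure_mono (subset_iUnion (O k) J)))
      hJ1).le
  choose J hJn hJη using hJ
  let D : ℕ → Set ℝ := fun n => O n (J n (n + 1)) ∪
    ⋃ k ∈ Finset.range n, (O k (J k (n + 1)) \ O k (J k n))
  have hD𝒜 : ∀ n, D n ∈ range C := fun n => by
    rw [← hC]
    exact h𝒜.union_mem (hO𝒜 _ _) (h𝒜.biUnion_mem _ fun k _ => h𝒜.sdiff_mem (hO𝒜 _ _) (hO𝒜 _ _))
  choose x hx using hD𝒜
  refine ⟨x, fun n => ?_, fun a ha => ?_⟩
  · rw [hx]
    calc volume (D n) ≤ volume (O n (J n (n + 1))) +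
          volume (⋃ k ∈ Finset.range n, (O k (J k (n + 1)) \ O k (J k n))) := measure_union_le _ _
      _ ≤ η n + ∑ _k ∈ Finset.range n, η n := by
          refine add_le_add (le_trans (measure_mono (subset_iUnion (O n) _)) (hOη n)) ?_
          refine le_trans (measure_biUnion_finset_le _ _) (Finset.sum_le_sum fun k _ => ?_)
          exact le_trans (measure_mono (sdiff_subset_sdiff_left (subset_iUnion (O k) _))) (hJη k n)
      _ = (n + 1) * η n := by simp [add_mul, add_comm]
      _ = min (ε n) 1 := by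
          simp only [η]
          exact ENNReal.mul_div_cancel (by simp) (by simp)
      _ ≤ ε n := min_le_left _ _
  · rw [frequently_atTop]
    intro k
    have hex : ∃ n, k ≤ n ∧ a ∈ O k (J k (n + 1)) := by
      obtain ⟨j, hj⟩ := mem_iUnion.mp (hON k ha)
      exact ⟨max k j, le_max_left _ _, hOmono k (by have := hJn k (max k j + 1); omega) hj⟩
    refine ⟨Nat.find hex, (Nat.find_spec hex).1, ?_⟩
    rw [hx]
    rcases (Nat.find_spec hex).1.eq_or_lt with h | h
    · left
      have := (Nat.find_spec hex).2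
      rw [← h] at this ⊢
      exact this
    · right
      simp only [mem_iUnion, Finset.mem_range]
      refine ⟨k, h, (Nat.find_spec hex).2, fun hmem => ?_⟩
      have hmin := Nat.find_min hex (m := Nat.find hex - 1) (by omega)
      refine hmin ⟨by omega, ?_⟩
      rwa [Nat.sub_add_cancel (by omega)]

end Pool.Agent.Lib.MP_f79ffc_lc
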