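import Pool.Agent.Lib.MP_f79ffc_lc.Defs
import Pool.Agent.Lib.MP_f79ffc_lc.Key
import Pool.Agent.Lib.MP_f79ffc_lc.Transfer

open MeasureTheory Set Filter Cardinal
open scoped ENNReal

namespace Pool.Agent.Lib.MP_f79ffc_lc

lemma un_finite_measure {Z : Set ℝ} (hZ : Z ∈ UnivNull) (ν : Measure ℝ) [IsFiniteMeasure ν]
    (hν : ∀ x, ν {x} = 0) : ν Z = 0 := by
  rcases eq_zero_or_neZero ν with rfl | h
  · simp
  have h1 := hZ ((ν univ)⁻¹ • ν) inferInstance (fun x => by simp [hν x])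
  simp only [Measure.smul_apply, smul_eq_mul, mul_eq_zero, ENNReal.inv_eq_zero] at h1
  rcases h1 with h1 | h1
  · exact absurd h1 (measure_ne_top _ _)
  · exact h1

/-- A set mapped measurably into a universally null set with universally null fibres is
universally null. -/
lemma un_of_fibres {Z X : Set ℝ} (hZ : Z ∈ UnivNull) {Φ : ℝ → ℝ} (hΦ : Measurable Φ)
    (hX : ∀ x ∈ X, Φ x ∈ Z) (hfib : ∀ z, X ∩ Φ ⁻¹' {z} ∈ UnivNull) : X ∈ UnivNull := by
  intro μ hμ hat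
  set D : Set ℝ := {t | 0 < μ {a | Φ a = t}} with hD
  have hDc : D.Countable := Measure.countable_meas_level_set_pos hΦ
  have hDm : MeasurableSet D := hDc.measurableSet
  have h1 : μ (X ∩ Φ ⁻¹' D) = 0 := by
    have : X ∩ Φ ⁻¹' D = ⋃ z ∈ D, X ∩ Φ ⁻¹' {z} := by
      ext a; simp
    rw [this, measure_biUnion_null_iff hDc]
    exact fun z _ => hfib z μ hμ hat
  let ν : Measure ℝ := (μ.map Φ).restrict Dᶜ
  have hν : ∀ t, ν {t} = 0 := by
    intro t
    simp only [ν]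
    rw [Measure.restrict_apply (measurableSet_singleton t)]
    by_cases ht : t ∈ D
    · have : ({t} : Set ℝ) ∩ Dᶜ = ∅ := by
        ext a; simp only [mem_inter_iff, mem_singleton_iff, mem_compl_iff, mem_empty_iff_false,
          iff_false, not_and, not_not]; rintro rfl; exact ht
      rw [this, measure_empty]
    · refine measure_mono_null inter_subset_left ?_
      rw [Measure.map_apply hΦ (measurableSet_singleton t)]
      simp only [hD, mem_ofPred_eq, not_lt, nonpos_iff_eq_zero] at ht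
      exact ht
  have h2 : ν Z = 0 := un_finite_measure hZ ν hν
  have h3 : μ (Φ ⁻¹' (toMeasurable ν Z ∩ Dᶜ)) = 0 := by
    rw [← Measure.map_apply hΦ ((measurableSet_toMeasurable ν Z).inter hDm.compl),
      ← Measure.restrict_apply (measurableSet_toMeasurable ν Z)]
    change ν (toMeasurable ν Z) = 0
    rw [measure_toMeasurable, h2]
  refine measure_mono_null (fun a ha => ?_) (measure_union_null h1 h3)
  by_cases h : Φ a ∈ D
  · exact Or.inl ⟨ha, h⟩
  · exact Or.inr ⟨subset_toMeasurable _ _ (hX a ha), h⟩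

lemma un_of_subsingleton {X : Set ℝ} (hX : X.Subsingleton) : X ∈ UnivNull := by
  intro μ _ hat
  rcases hX.eq_empty_or_singleton with rfl | ⟨x, rfl⟩
  · simp
  · exact hat x

lemma un_of_injOn {Z X : Set ℝ} (hZ : Z ∈ UnivNull) {Φ : ℝ → ℝ} (hΦ : Measurable Φ)
    (hX : ∀ x ∈ X, Φ x ∈ Z) (hinj : InjOn Φ X) : X ∈ UnivNull :=
  un_of_fibres hZ hΦ hX fun _ => un_of_subsingleton fun _ ha _ hb =>
    hinj ha.1 hb.1 (ha.2.trans hb.2.symm)

lemma un_null {X : Set ℝ} (hX : X ∈ UnivNull) : X ∈ NullIdeal := by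
  have : X = ⋃ n : ℕ, X ∩ Icc (-(n : ℝ)) n := by
    ext a
    simp only [mem_iUnion, mem_inter_iff, mem_Icc, exists_and_left, iff_self_and]
    intro _
    obtain ⟨n, hn⟩ := exists_nat_ge |a|
    exact ⟨n, abs_le.mp hn⟩
  change volume X = 0
  rw [this, measure_iUnion_null_iff]
  intro n
  rw [← Measure.restrict_apply' measurableSet_Icc]
  refine un_finite_measure hX _ fun x => ?_
  simp

lemma univ_not_null : (univ : Set ℝ) ∉ NullIdeal := by
  simp [NullIdeal]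

lemma add_nonempty (I : Set (Set ℝ)) (h1 : ∀ x : ℝ, {x} ∈ I) (h2 : Set.univ ∉ I) :
    {κ | ∃ F : Set (Set ℝ), F ⊆ I ∧ ⋃₀ F ∉ I ∧ Cardinal.mk F = κ}.Nonempty := by
  refine ⟨_, range fun x : ℝ => {x}, ?_, ?_, rfl⟩
  · rintro _ ⟨x, rfl⟩; exact h1 x
  · rwa [sUnion_range, iUnion_of_singleton]

lemma add_attained (I : Set (Set ℝ)) (h1 : ∀ x : ℝ, {x} ∈ I) (h2 : Set.univ ∉ I) :
    ∃ F : Set (Set ℝ), F ⊆ I ∧ ⋃₀ F ∉ I ∧ Cardinal.mk F = addI I :=
  csInf_mem (add_nonempty I h1 h2)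

lemma add_le {I : Set (Set ℝ)} {ι : Type} (f : ι → Set ℝ) (hf : ∀ i, f i ∈ I)
    (hU : (⋃ i, f i) ∉ I) : addI I ≤ Cardinal.mk ι := by
  refine le_trans (csInf_le' ⟨range f, ?_, by rwa [sUnion_range], rfl⟩) mk_range_le
  rintro _ ⟨i, rfl⟩; exact hf i

lemma cof_attained (I : Set (Set ℝ)) :
    ∃ F : Set (Set ℝ), F ⊆ I ∧ (∀ A ∈ I, ∃ B ∈ F, A ⊆ B) ∧ Cardinal.mk F = cofI I :=
  csInf_mem (s := {κ | ∃ F : Set (Set ℝ), F ⊆ I ∧ (∀ A ∈ I, ∃ B ∈ F, A ⊆ B) ∧ Cardinal.mk F = κ})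
    ⟨_, I, subset_rfl, fun A hA => ⟨A, hA, subset_rfl⟩, rfl⟩

lemma addN_attained :
    ∃ F : Set (Set ℝ), F ⊆ NullIdeal ∧ ⋃₀ F ∉ NullIdeal ∧ Cardinal.mk F = addI NullIdeal :=
  add_attained _ (fun x => by simp [NullIdeal]) univ_not_null

lemma addUN_attained :
    ∃ F : Set (Set ℝ), F ⊆ UnivNull ∧ ⋃₀ F ∉ UnivNull ∧ Cardinal.mk F = addI UnivNull :=
  add_attained _ (fun _ => un_of_subsingleton subsingleton_singleton)
    (fun h => univ_not_null (un_null h))

/-- The known inequality. -/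
theorem addN_le_addUN : addI NullIdeal ≤ addI UnivNull := by
  obtain ⟨F, hF, hU, hcard⟩ := addUN_attained
  rw [← hcard]
  by_contra hlt
  apply hU
  intro μ hμ hat
  obtain ⟨π, h1, h2⟩ := transfer μ
  have hM : (⋃ X : F, (Subtype.val '' (π ⁻¹' X) : Set ℝ)) ∈ NullIdeal := by
    by_contra hM
    exact hlt (add_le _ (fun X => h1 X (hF X.2 μ hμ hat)) hM)
  have h3 : ∀ ε : ℝ, 0 < ε → μ.real (⋃₀ F) ≤ ε := by
    intro ε hε
    obtain ⟨K, -, hK, hK2⟩ := h2 _ hM ε hε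
    refine le_trans (measureReal_mono ?_) hK.le
    rintro y ⟨X, hX, hy⟩ hyK
    obtain ⟨t, rfl, ht⟩ := hK2 y hyK
    exact ht (mem_iUnion.mpr ⟨⟨X, hX⟩, t, hy, rfl⟩)
  have h4 : μ.real (⋃₀ F) = 0 :=
    le_antisymm (le_of_forall_pos_le_add fun ε hε => by simpa using h3 ε hε) measureReal_nonneg
  exact (measureReal_eq_zero_iff (measure_ne_top _ _)).mp h4

lemma Om_uncountable : ¬ Countable Om := by
  intro h
  have h1 : PP (⋃ y : Om, {y}) = 0 := measure_iUnion_null PP_single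
  rw [iUnion_of_singleton, measure_univ] at h1
  exact one_ne_zero h1

/-- Null sets with non-null union give a family of functions not localised by any slalom. -/
lemma exists_unlocalised (h : ℕ → ℕ) {ι : Type} (N : ι → Set ℝ) (hN : ∀ i, N i ∈ NullIdeal)
    (hU : (⋃ i, N i) ∉ NullIdeal) :
    ∃ x : ι → ℕ → ℕ, ∀ S : ℕ → Finset ℕ, (∀ n, (S n).card ≤ h n) →
      ∃ i, ∃ᶠ n in atTop, x i n ∉ S n := by
  classical
  obtain ⟨C, -, hC⟩ := exists_codes
  let ε : ℕ → ℝ≥0∞ := fun n => (2⁻¹ : ℝ≥0∞) ^ n / (h n + 1)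
  have hε : ∀ n, ε n ≠ 0 := fun n => ENNReal.div_ne_zero.mpr ⟨by simp, by simp⟩
  choose x hx1 hx2 using fun i => hC ε hε (N i) (hN i)
  refine ⟨x, fun S hS => ?_⟩
  by_contra hcon
  simp only [not_exists, not_frequently, not_not] at hcon
  apply hU
  let E : ℕ → Set ℝ := fun n => ⋃ m ∈ (S n).filter (fun m => volume (C m) ≤ ε n), C m
  have hE : ∀ n, volume (E n) ≤ (2⁻¹ : ℝ≥0∞) ^ n := by
    intro n
    calc volume (E n) ≤ ∑ m ∈ (S n).filter (fun m => volume (C m) ≤ ε n), volume (C m) :=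
          measure_biUnion_finset_le _ _
      _ ≤ ((S n).filter (fun m => volume (C m) ≤ ε n)).card • ε n :=
          Finset.sum_le_card_nsmul _ _ _ fun m hm => (Finset.mem_filter.mp hm).2
      _ ≤ (h n + 1) * ε n := by
          rw [nsmul_eq_mul]
          gcongr
          have : ((S n).filter (fun m => volume (C m) ≤ ε n)).card ≤ h n + 1 :=
            le_trans (Finset.card_filter_le _ _) (le_trans (hS n) (Nat.le_succ _))
          exact_mod_cast this
      _ = (2⁻¹ : ℝ≥0∞) ^ n := ENNReal.mul_div_cancel (by simp) (by simp)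
  have hsum : ∑' n, volume (E n) ≠ ∞ := by
    refine ne_top_of_le_ne_top ?_ (ENNReal.tsum_le_tsum hE)
    rw [ENNReal.tsum_geometric]
    simp
  have hnull := measure_setOfPred_frequently_eq_zero (μ := volume) (p := fun n a => a ∈ E n) hsum
  refine measure_mono_null (fun a ha => ?_) hnull
  obtain ⟨i, hi⟩ := mem_iUnion.mp ha
  refine ((hx2 i a hi).and_eventually (hcon i)).mono fun n hn => ?_
  simp only [E, mem_iUnion]
  exact ⟨x i n, Finset.mem_filter.mpr ⟨hn.2, hx1 i n⟩, hn.1⟩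

/-- Main theorem. -/
theorem addUN_le_of_large {Z : Set ℝ} (hZ : Z ∈ UnivNull) (hcard : cofI NullIdeal ≤ Cardinal.mk Z) :
    addI UnivNull ≤ addI NullIdeal := by
  classical
  obtain ⟨F, hF, hU, hFc⟩ := addN_attained
  obtain ⟨𝓜, h𝓜, hcof, h𝓜c⟩ := cof_attained NullIdeal
  obtain ⟨h, hkey⟩ := key
  obtain ⟨x, hx⟩ := exists_unlocalised h (fun N : F => (N : Set ℝ)) (fun N => hF N.2)
    (by rwa [← sUnion_eq_iUnion])
  have : PolishSpace Om := {}
  obtain ⟨π, hπ1, hπ2⟩ := transfer PP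
  obtain ⟨z⟩ : Nonempty (𝓜 ↪ Z) := by
    rw [← Cardinal.le_def, h𝓜c]; exact hcard
  let d : ℝ ≃ᵐ (ℕ → Bool) :=
    PolishSpace.measurableEquivNatBoolOfNotCountable (not_countable_iff.mpr inferInstance)
  let e : Om ≃ᵐ ℝ :=
    PolishSpace.measurableEquivOfNotCountable Om_uncountable (not_countable_iff.mpr inferInstance)
  have hpt : ∀ M : 𝓜, ∃ i : F, ∃ y : Om, dec (fun n => y (n, x i n)) = d (z M) ∧
      ∃ t : unitInterval, π t = y ∧ (t : ℝ) ∉ (M : Set ℝ) := by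
    intro M
    obtain ⟨K, hK, hKm, hKt⟩ := hπ2 M (h𝓜 M.2) (1 / 4) (by norm_num)
    obtain ⟨S, hS, hS2⟩ := hkey K hK hKm
    obtain ⟨i, hi⟩ := hx S hS
    obtain ⟨y, hyK, hy⟩ := hS2 (x i) hi (d (z M))
    exact ⟨i, y, hy, hKt y hyK⟩
  choose i y hy ht using hpt
  let Y : F → Set ℝ := fun j => {r | ∃ M, i M = j ∧ e (y M) = r}
  rw [← hFc]
  refine add_le Y (fun j => ?_) fun hY => ?_
  · let Φ : ℝ → ℝ := fun r => d.symm (dec (fun n => e.symm r (n, x j n)))
    have hΦ : Measurable Φ :=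
      d.symm.measurable.comp (meas_dec.comp (measurable_pi_lambda _ fun n =>
        (measurable_pi_apply (n, x j n)).comp e.symm.measurable))
    have hΦy : ∀ M, i M = j → Φ (e (y M)) = z M := by
      rintro M rfl
      simp only [Φ, MeasurableEquiv.symm_apply_apply, hy]
    refine un_of_injOn hZ hΦ ?_ ?_
    · rintro _ ⟨M, hM, rfl⟩
      rw [hΦy M hM]; exact (z M).2
    · rintro _ ⟨M, hM, rfl⟩ _ ⟨M', hM', rfl⟩ heq
      rw [hΦy M hM, hΦy M' hM'] at heq
      rw [z.injective (Subtype.ext heq)]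
  · have hprob : IsProbabilityMeasure (PP.map e) :=
      Measure.isProbabilityMeasure_map e.measurable.aemeasurable
    have h0 := hY (PP.map e) hprob (fun r => by
      rw [e.map_apply]
      have : e ⁻¹' {r} = {e.symm r} := by
        ext w; simp only [mem_preimage, mem_singleton_iff]
        constructor
        · rintro rfl; simp
        · rintro rfl; simp
      rw [this]; exact PP_single _)
    rw [e.map_apply] at h0
    obtain ⟨M, hM, hsub⟩ := hcof _ (hπ1 _ h0)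
    obtain ⟨t, ht1, ht2⟩ := ht ⟨M, hM⟩
    refine ht2 (hsub ⟨t, ?_, rfl⟩)
    simp only [mem_preimage, mem_iUnion]
    exact ⟨i ⟨M, hM⟩, ⟨M, hM⟩, rfl, by rw [ht1]⟩

end Pool.Agent.Lib.MP_f79ffc_lc
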