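import Mathlib

open MeasureTheory Set Filter

namespace Pool.Agent.Lib.MP_f79ffc_lc

/-- Second moment bound: few pairwise independent events correlate with a fixed set. -/
theorem few_bad {α : Type*} [MeasurableSpace α] (μ : Measure α) [IsFiniteMeasure μ]
    (U : Set α) (hU : MeasurableSet U) (B : Finset ℕ) (G : ℕ → Set α)
    (hG : ∀ m, MeasurableSet (G m))
    (p δ : ℝ) (hp : 0 < p) (hδ : 0 < δ) (he : 0 < μ.real univ)
    (h1 : ∀ m ∈ B, μ.real (G m) = p * μ.real univ)
    (h2 : ∀ m ∈ B, ∀ m' ∈ B, m ≠ m' → μ.real (G m ∩ G m') = p * p * μ.real univ)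
    (hbad : ∀ m ∈ B, (μ.real U + δ * μ.real univ) * p ≤ μ.real (U ∩ G m)) :
    (B.card : ℝ) * (δ ^ 2 * p) ≤ 1 := by
  classical
  set e := μ.real univ with he_def
  let ind : Set α → α → ℝ := fun s => s.indicator 1
  have hind : ∀ s, MeasurableSet s → Integrable (ind s) μ := fun s hs =>
    (integrable_const (1 : ℝ)).indicator hs
  have hind_int : ∀ s, MeasurableSet s → ∫ x, ind s x ∂μ = μ.real s := fun s hs =>
    integral_indicator_one hs
  let g : ℕ → α → ℝ := fun m x => ind (G m) x - p
  have hprod : ∀ m m', (fun x => g m x * g m' x) =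
      fun x => ind (G m ∩ G m') x - p * ind (G m) x - p * ind (G m') x + p * p := by
    intro m m'
    funext x
    by_cases h : x ∈ G m <;> by_cases h' : x ∈ G m' <;> simp [g, ind, h, h'] <;> ring
  have hprod_int : ∀ m m', Integrable (fun x => g m x * g m' x) μ := by
    intro m m'
    rw [hprod]
    exact (((hind _ ((hG m).inter (hG m'))).sub ((hind _ (hG m)).const_mul p)).sub
      ((hind _ (hG m')).const_mul p)).add (integrable_const _)
  have hprod_val : ∀ m m', ∫ x, g m x * g m' x ∂μ =
      μ.real (G m ∩ G m') - p * μ.real (G m) - p * μ.real (G m') + p * p * e := by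
    intro m m'
    rw [hprod, integral_add, integral_sub, integral_sub, integral_const_mul, integral_const_mul,
      hind_int _ ((hG m).inter (hG m')), hind_int _ (hG m), hind_int _ (hG m'), integral_const,
      smul_eq_mul]
    · ring
    · exact hind _ ((hG m).inter (hG m'))
    · exact (hind _ (hG m)).const_mul p
    · exact (hind _ ((hG m).inter (hG m'))).sub ((hind _ (hG m)).const_mul p)
    · exact (hind _ (hG m')).const_mul p
    · exact ((hind _ ((hG m).inter (hG m'))).sub ((hind _ (hG m)).const_mul p)).sub
        ((hind _ (hG m')).const_mul p)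
    · exact integrable_const _
  let W : α → ℝ := fun x => ∑ m ∈ B, g m x
  have hW2 : (fun x => W x * W x) = fun x => ∑ m ∈ B, ∑ m' ∈ B, g m x * g m' x := by
    funext x
    simp only [W, Finset.sum_mul_sum]
  have hW2int : Integrable (fun x => W x * W x) μ := by
    rw [hW2]
    exact integrable_finsetSum _ fun m _ => integrable_finsetSum _ fun m' _ => hprod_int m m'
  have hW2val : ∫ x, W x * W x ∂μ ≤ B.card * (p * e) := by
    rw [hW2, integral_finsetSum _ fun m _ => integrable_finsetSum _ fun m' _ => hprod_int m m']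
    have : ∀ m ∈ B, ∫ x, ∑ m' ∈ B, g m x * g m' x ∂μ ≤ p * e := by
      intro m hm
      rw [integral_finsetSum _ fun m' _ => hprod_int m m']
      rw [Finset.sum_eq_single m]
      · rw [hprod_val, inter_self, h1 m hm]
        have : 0 ≤ p * p * e := by positivity
        nlinarith
      · intro m' hm' hne
        rw [hprod_val, h2 m hm m' hm' hne.symm, h1 m hm, h1 m' hm']
        ring
      · intro h
        exact absurd hm h
    calc ∑ m ∈ B, ∫ x, ∑ m' ∈ B, g m x * g m' x ∂μ ≤ ∑ _m ∈ B, p * e := Finset.sum_le_sum this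
      _ = B.card * (p * e) := by simp
  have hUg : ∀ m, (fun x => ind U x * g m x) = fun x => ind (U ∩ G m) x - p * ind U x := by
    intro m
    funext x
    by_cases h : x ∈ U <;> by_cases h' : x ∈ G m <;> simp [g, ind, h, h']
  have hUgint : ∀ m, Integrable (fun x => ind U x * g m x) μ := by
    intro m
    rw [hUg]
    exact (hind _ (hU.inter (hG m))).sub ((hind _ hU).const_mul p)
  have hUW : (fun x => ind U x * W x) = fun x => ∑ m ∈ B, ind U x * g m x := by
    funext x
    simp only [W, Finset.mul_sum]
  have hUWint : Integrable (fun x => ind U x * W x) μ := by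
    rw [hUW]
    exact integrable_finsetSum _ fun m _ => hUgint m
  have hUWval : B.card * (δ * p * e) ≤ ∫ x, ind U x * W x ∂μ := by
    rw [hUW, integral_finsetSum _ fun m _ => hUgint m]
    have : ∀ m ∈ B, δ * p * e ≤ ∫ x, ind U x * g m x ∂μ := by
      intro m hm
      rw [hUg, integral_sub (hind _ (hU.inter (hG m))) ((hind _ hU).const_mul p),
        integral_const_mul, hind_int _ (hU.inter (hG m)), hind_int _ hU]
      have := hbad m hm
      nlinarith
    calc (B.card : ℝ) * (δ * p * e) = ∑ _m ∈ B, δ * p * e := by simp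
      _ ≤ _ := Finset.sum_le_sum this
  set t : ℝ := B.card * (δ * p) with ht
  have ht0 : 0 ≤ t := by positivity
  have hpt : ∀ x, 2 * t * (ind U x * W x) ≤ W x * W x + t * t := by
    intro x
    by_cases h : x ∈ U
    · simp only [ind, h, indicator_of_mem, Pi.one_apply, one_mul]
      nlinarith [sq_nonneg (W x - t)]
    · simp only [ind, h, not_false_eq_true, indicator_of_notMem, zero_mul, mul_zero]
      nlinarith [sq_nonneg (W x), sq_nonneg t]
  have hle : ∫ x, 2 * t * (ind U x * W x) ∂μ ≤ ∫ x, (W x * W x + t * t) ∂μ :=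
    integral_mono (hUWint.const_mul _) (hW2int.add (integrable_const _)) hpt
  rw [integral_const_mul, integral_add hW2int (integrable_const _), integral_const,
    smul_eq_mul] at hle
  have h3 : 2 * t * (t * e) ≤ B.card * (p * e) + e * (t * t) := by
    have : t * e ≤ ∫ x, ind U x * W x ∂μ := by
      have : t * e = B.card * (δ * p * e) := by rw [ht]; ring
      rw [this]; exact hUWval
    have h4 : 2 * t * (t * e) ≤ 2 * t * ∫ x, ind U x * W x ∂μ :=
      mul_le_mul_of_nonneg_left this (by positivity)
    linarith
  have h5 : t * t ≤ B.card * p := by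
    have : (t * t) * e ≤ (B.card * p) * e := by nlinarith
    exact le_of_mul_le_mul_right this he
  rcases Nat.eq_zero_or_pos B.card with h0 | h0
  · simp [h0]
  · have hc : (0 : ℝ) < B.card := by exact_mod_cast h0
    have : (B.card * p) * (B.card * (δ ^ 2 * p)) ≤ (B.card * p) * 1 := by
      have : (B.card * p) * (B.card * (δ ^ 2 * p)) = t * t := by rw [ht]; ring
      linarith
    exact le_of_mul_le_mul_left this (by positivity)

end Pool.Agent.Lib.MP_f79ffc_lc
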