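import Pool.Agent.Lib.MP_f79ffc_lc.Moment

open MeasureTheory Set Filter
open scoped ENNReal

namespace Pool.Agent.Lib.MP_f79ffc_lc

/-- probability of each non-silent value at level `n` -/
noncomputable def pp (n : ℕ) : ℝ := (1 / 2) ^ n / 64

lemma pp_pos (n : ℕ) : 0 < pp n := by unfold pp; positivity

lemma pp_le (n : ℕ) : pp n ≤ 1 / 64 := by
  unfold pp
  have : ((1 : ℝ) / 2) ^ n ≤ 1 := pow_le_one₀ (by norm_num) (by norm_num)
  linarith

/-- weight of the value `v` at level `n` -/
noncomputable def ww (n : ℕ) (v : Fin 3) : ℝ := if v = 0 then 1 - 2 * pp n else pp n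

lemma ww_pos (n : ℕ) (v : Fin 3) : 0 < ww n v := by
  unfold ww
  have := pp_pos n
  have := pp_le n
  split_ifs <;> linarith

noncomputable def nu (n : ℕ) : Measure (Fin 3) :=
  ENNReal.ofReal (ww n 0) • Measure.dirac 0 + ENNReal.ofReal (ww n 1) • Measure.dirac 1 +
    ENNReal.ofReal (ww n 2) • Measure.dirac 2

lemma nu_single (n : ℕ) (v : Fin 3) : nu n {v} = ENNReal.ofReal (ww n v) := by
  fin_cases v <;> simp [nu]

instance nu_prob (n : ℕ) : IsProbabilityMeasure (nu n) := by
  constructor
  simp only [nu, Measure.coe_add, Measure.coe_smul, Pi.add_apply, Pi.smul_apply, measure_univ,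
    smul_eq_mul, mul_one]
  rw [← ENNReal.ofReal_add (ww_pos n 0).le (ww_pos n 1).le,
    ← ENNReal.ofReal_add (add_nonneg (ww_pos n 0).le (ww_pos n 1).le) (ww_pos n 2).le]
  have : ww n 0 + ww n 1 + ww n 2 = 1 := by
    simp [ww]; ring
  rw [this]; simp

abbrev Om : Type := ℕ × ℕ → Fin 3

noncomputable def PP : Measure Om := Measure.infinitePi (fun i : ℕ × ℕ => nu i.1)

instance PP_prob : IsProbabilityMeasure PP := by unfold PP; infer_instance

/-- cylinder given by finitely many prescribed values -/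
def cyl (t : Finset ((ℕ × ℕ) × Fin 3)) : Set Om := {y | ∀ q ∈ t, y q.1 = q.2}

lemma cyl_clopen (t : Finset ((ℕ × ℕ) × Fin 3)) : IsClopen (cyl t) := by
  have : cyl t = ⋂ q ∈ t, (fun y : Om => y q.1) ⁻¹' {q.2} := by
    ext y; simp [cyl]
  rw [this]
  exact isClopen_biInter_finset fun q _ =>
    (isClopen_discrete _).preimage (continuous_apply q.1)

lemma cyl_meas (t : Finset ((ℕ × ℕ) × Fin 3)) : MeasurableSet (cyl t) :=
  (cyl_clopen t).isOpen.measurableSet

lemma cyl_eq_pi (t : Finset ((ℕ × ℕ) × Fin 3)) :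
    cyl t = Set.pi (t.image Prod.fst : Finset (ℕ × ℕ)) (fun i => {v | ∀ q ∈ t, q.1 = i → v = q.2}) := by
  ext y
  simp only [cyl, mem_ofPred_eq, Finset.coe_image, Set.mem_pi, mem_image, Finset.mem_coe]
  constructor
  · rintro h i - q hq rfl
    exact h q hq
  · intro h q hq
    exact h q.1 ⟨q, hq, rfl⟩ q hq rfl

lemma cyl_insert (t : Finset ((ℕ × ℕ) × Fin 3)) (i : ℕ × ℕ) (v : Fin 3) :
    cyl (insert (i, v) t) = cyl t ∩ {y | y i = v} := by
  ext y
  simp [cyl, and_comm]

lemma PP_cyl_inter (t : Finset ((ℕ × ℕ) × Fin 3)) (i : ℕ × ℕ) (v : Fin 3)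
    (hi : ∀ q ∈ t, q.1 ≠ i) :
    PP.real (cyl t ∩ {y | y i = v}) = ww i.1 v * PP.real (cyl t) := by
  classical
  have hi' : i ∉ t.image Prod.fst := by
    simp only [Finset.mem_image, not_exists, not_and]
    exact hi
  have h : PP (cyl (insert (i, v) t)) = ENNReal.ofReal (ww i.1 v) * PP (cyl t) := by
    rw [cyl_eq_pi, cyl_eq_pi, PP, Measure.infinitePi_pi _ (fun _ _ => MeasurableSet.of_discrete),
      Measure.infinitePi_pi _ (fun _ _ => MeasurableSet.of_discrete), Finset.image_insert,
      Finset.prod_insert hi']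
    congr 1
    · rw [← nu_single]
      congr 1
      ext u
      simp only [Finset.mem_insert, mem_ofPred_eq, mem_singleton_iff]
      constructor
      · intro h
        exact h (i, v) (Or.inl rfl) rfl
      · rintro rfl q (rfl | hq) hqi
        · rfl
        · exact absurd hqi (hi q hq)
    · refine Finset.prod_congr rfl fun j hj => ?_
      congr 1
      ext u
      have hji : i ≠ j := by
        rintro rfl
        exact hi' hj
      simp only [Finset.mem_insert, mem_ofPred_eq]
      constructor
      · intro h q hq hqj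
        exact h q (Or.inr hq) hqj
      · rintro h q (rfl | hq) hqj
        · exact absurd hqj hji
        · exact h q hq hqj
  rw [← cyl_insert, Measure.real, h, ENNReal.toReal_mul, ENNReal.toReal_ofReal (ww_pos _ _).le]
  rfl

/-- the finite condition: the blocks `(n, x n)` for `n < j` take the values `v n` -/
def cond (x : ℕ → ℕ) (v : ℕ → Fin 3) (j : ℕ) : Finset ((ℕ × ℕ) × Fin 3) :=
  (Finset.range j).image (fun n => ((n, x n), v n))

lemma mem_cyl_cond (x : ℕ → ℕ) (v : ℕ → Fin 3) (j : ℕ) (y : Om) :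
    y ∈ cyl (cond x v j) ↔ ∀ n < j, y (n, x n) = v n := by
  simp [cyl, cond]

lemma cond_lev (x : ℕ → ℕ) (v : ℕ → Fin 3) (j : ℕ) : ∀ q ∈ cond x v j, q.1.1 < j := by
  intro q hq
  simp only [cond, Finset.mem_image, Finset.mem_range] at hq
  obtain ⟨n, hn, rfl⟩ := hq
  exact hn

lemma PP_cond (x : ℕ → ℕ) (v : ℕ → Fin 3) (j : ℕ) :
    PP.real (cyl (cond x v j)) = ∏ n ∈ Finset.range j, ww n (v n) := by
  induction j with
  | zero =>
    have : cyl (cond x v 0) = univ := by
      ext y; simp [mem_cyl_cond]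
    simp [this]
  | succ j ih =>
    have : cyl (cond x v (j + 1)) = cyl (cond x v j) ∩ {y | y (j, x j) = v j} := by
      ext y
      simp only [mem_cyl_cond, mem_inter_iff, mem_ofPred_eq]
      constructor
      · intro h
        exact ⟨fun n hn => h n (by omega), h j (by omega)⟩
      · rintro ⟨h1, h2⟩ n hn
        rcases Nat.lt_succ_iff_lt_or_eq.mp hn with h | rfl
        · exact h1 n h
        · exact h2
    rw [this, PP_cyl_inter, ih, Finset.prod_range_succ, mul_comm]
    intro q hq heq
    have := cond_lev x v j q hq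
    rw [heq] at this
    exact lt_irrefl _ this

lemma PP_single (y : Om) : PP {y} = 0 := by
  have key : ∀ M : ℕ, PP.real (cyl ((Finset.range M).image (fun m => ((0, m), y (0, m))))) ≤
      (63 / 64) ^ M := by
    intro M
    induction M with
    | zero => simp [measureReal_le_one]
    | succ M ih =>
      rw [Finset.range_add_one, Finset.image_insert, cyl_insert, PP_cyl_inter]
      · have h1 : ww 0 (y (0, M)) ≤ 63 / 64 := by
          unfold ww pp
          split_ifs <;> norm_num
        rw [pow_succ, mul_comm ((63 / 64 : ℝ) ^ M)]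
        exact mul_le_mul h1 ih measureReal_nonneg (by norm_num)
      · intro q hq heq
        simp only [Finset.mem_image, Finset.mem_range] at hq
        obtain ⟨m, hm, rfl⟩ := hq
        simp only [Prod.mk.injEq, true_and] at heq
        omega
  have h2 : ∀ M : ℕ, PP.real {y} ≤ (63 / 64) ^ M := by
    intro M
    refine le_trans (measureReal_mono ?_) (key M)
    intro z hz
    rw [mem_singleton_iff.mp hz]
    simp [cyl]
  have h3 : PP.real {y} ≤ 0 :=
    ge_of_tendsto' (tendsto_pow_atTop_nhds_zero_of_lt_one (by norm_num) (by norm_num)) h2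
  have h4 : PP.real {y} = 0 := le_antisymm h3 measureReal_nonneg
  exact (measureReal_eq_zero_iff (measure_ne_top _ _)).mp h4

end Pool.Agent.Lib.MP_f79ffc_lc
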